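import Pool.Agent.Helper85.HP.G4
import Pool.Agent.Helper86.PE.D2

/-!
# Goldbach's problem along the values of polynomials at every scale, with the exceptional zero in the main term

For all `K` and `ε > 0` there are `D` and `δ, c > 0` such that for all `B` and `κ > 0` and EVERY large scale `N` there
are a modulus `r ≥ (log N) ^ B`, a character `χ` modulo `r` with `χ ^ 2 = 1` and a number `0 ≤ y ≤ 1 - N ^ (-κ)`, where
either `y = 0` or `χ` is primitive and nontrivial and `y = N ^ (β - 1)` for a real zero `β` of `L(s, χ)`, with the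
following property. For all integer polynomials `F` of degree `1 ≤ d ≤ K` (which may depend on `N`) with
`|F (x)| ≤ N ^ (1 + δ)` for `0 ≤ x < P`, where `P ^ d ≥ N ^ (1 - δ)`, all `x` with `0 ≤ x < P`, with the exception of
at most `N ^ (-δ) P` of them, have the property that for ALL `n ≥ 1` with `|2 n - F (x)| ≤ N ^ δ` and ALL intervals
`[u, v)` inside `[1, 2 n)` and `[1, 2 N)` of length at least `N ^ (1 - δ)` the number of the primes `u ≤ p < v` for which
`2 n - p` is prime is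

* `T S (v - u) / (log N) ^ 2` up to the relative error `ε`, where `S ≥ c` is the singular series of Goldbach's problem
  for `2 n` and `T` is the mean of the `(1 - y χ (x)) (1 - y χ (2 n - x))` over the residues `x` modulo `r` for which
  `x` and `2 n - x` are prime to `r`, and
* `S (v - u) / (log N) ^ 2` up to the relative error `ε`, if `r` does not divide `D n ^ 2`.

One has `(1 - y) ^ 2 ≤ T ≤ 4`. Consequently (second part) at every large scale for all `0 ≤ x < P` with the exception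
of at most `N ^ (-δ) P` of them, every even number `2 n` with `|2 n - F (x)| ≤ N ^ δ` and `N ^ (1 - δ) < n ≤ 2 N` is in
at least `N ^ (1 - δ - κ)` ways the sum of two distinct primes `p`, `2 n - p` with `n - N ^ (1 - δ) ≤ p < n`.

Third part: at most scales `N`, for all such `F` with `|F (x)| ≤ N`, the second formula holds without a condition on
`r` (for all such `x` with the same number of exceptions, all `n` and all intervals `[u, v)` inside `[1, 2 n)`).

The third part is due to helper85 (`Pool.Agent.Helper85.HP.mostG`), as is the method for the families of the values of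
polynomials (Hölder's inequality and Hua's lemma, uniform in `F`).
-/

set_option autoImplicit false

namespace Pool.Agent.Results.MP_7b7e48_nt.PolynomialValues

open Finset Polynomial

/-- The number of the residue classes `x` modulo the prime `p` for which `p` divides `x` or `2 n - x`. -/
def nu (n p : ℕ) : ℕ := if p ∣ 2 * n then 1 else 2

/-- `S` is the singular series of Goldbach's problem for the even number `2 n`. -/
def IsSingularSeries (n : ℕ) (S : ℝ) : Prop :=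
  HasProd (fun p : Nat.Primes => (1 - (nu n p : ℝ) / (p : ℕ)) * ((1 - 1 / ((p : ℕ) : ℝ))⁻¹) ^ 2) S

/-- The number of the primes `p` with `u ≤ p < v` for which `2 n - p` is prime. -/
def representations (n u v : ℕ) : ℕ := ((Ico u v).filter (fun p => p.Prime ∧ (2 * n - p).Prime)).card

/-- The residues `x` modulo `r` for which `x` and `2 n - x` are prime to `r`. -/
def unitResidues (r n : ℕ) : Finset ℕ :=
  (range r).filter (fun x : ℕ => Int.gcd x r = 1 ∧ Int.gcd (2 * n - x) r = 1)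

/-- The mean over these residues of `(1 - y χ (x)) (1 - y χ (2 n - x))`. -/
noncomputable def twist {r : ℕ} (χ : DirichletCharacter ℂ r) (y : ℝ) (n : ℕ) : ℝ :=
  (∑ x ∈ unitResidues r n, (1 - y * (χ ((x : ℤ) : ZMod r)).re) * (1 - y * (χ ((2 * n - x : ℤ) : ZMod r)).re)) /
    (unitResidues r n).card

/-- The asymptotic formula for the number of the representations of `2 n` as a sum of two primes, for all intervals of
length at least `N ^ (1 - δ)`. -/
def Good {r : ℕ} (ε δ c : ℝ) (D N : ℕ) (χ : DirichletCharacter ℂ r) (y : ℝ) (n : ℕ) : Prop :=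
  (1 - y) ^ 2 ≤ twist χ y n ∧ twist χ y n ≤ 4 ∧ ∃ S : ℝ, IsSingularSeries n S ∧ c ≤ S ∧
    ∀ u v : ℕ, 1 ≤ u → v ≤ 2 * n → v ≤ 2 * N → (N : ℝ) ^ (1 - δ) ≤ (v : ℝ) - u →
      |(representations n u v : ℝ) - twist χ y n * S * (((v : ℝ) - u) / Real.log N ^ 2)| ≤
          ε * (twist χ y n * S * (((v : ℝ) - u) / Real.log N ^ 2)) ∧
      (¬ r ∣ D * n ^ 2 →
        |(representations n u v : ℝ) - S * (((v : ℝ) - u) / Real.log N ^ 2)| ≤
          ε * (S * (((v : ℝ) - u) / Real.log N ^ 2)))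

/-- The number of the primes `p < n` with `n - p ≤ L` for which `2 n - p` is prime. -/
noncomputable def closePairs (n : ℕ) (L : ℝ) : ℕ := by
  classical
  exact ((range n).filter (fun p : ℕ => p.Prime ∧ (2 * n - p).Prime ∧ (n : ℝ) - p ≤ L)).card

/-- The admissible polynomials at the scale `N`: the degree `d` of `F` is between `1` and `K`, `P ^ d ≥ N ^ (1 - δ)`,
and `|F (x)| ≤ N ^ (1 + δ)` for `0 ≤ x < P`. -/
def Family (K : ℕ) (δ : ℝ) (N P : ℕ) (F : ℤ[X]) : Prop :=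
  1 ≤ F.natDegree ∧ F.natDegree ≤ K ∧ (N : ℝ) ^ (1 - δ) ≤ (P : ℝ) ^ F.natDegree ∧
    ∀ x : ℕ, x < P → ((|F.eval (x : ℤ)| : ℤ) : ℝ) ≤ (N : ℝ) ^ (1 + δ)

/-- The asymptotic formula for the number of the representations of `2 n` as a sum of two primes without the factor
`T`, for all intervals `[u, v)` inside `[1, 2 n)` of length at least `N ^ (1 - δ)`. -/
def Predicted (ε δ : ℝ) (N n : ℕ) : Prop :=
  ∃ S : ℝ, IsSingularSeries n S ∧ 0 < S ∧
    ∀ u v : ℕ, 1 ≤ u → v ≤ 2 * n → (N : ℝ) ^ (1 - δ) ≤ (v : ℝ) - u →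
      |(representations n u v : ℝ) - S * (((v : ℝ) - u) / Real.log N ^ 2)| ≤
        ε * (S * (((v : ℝ) - u) / Real.log N ^ 2))

open Classical in
/-- The property `P` holds at most scales: the set of the positive integers `N` with the property `P` has upper
logarithmic density at least `1 - ε`. Precisely, for arbitrarily large `R` the sum of `1 / N` over the `N ≤ R`
without the property is at most `ε log R`. -/
def MostScales (ε : ℝ) (P : ℕ → Prop) : Prop :=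
  ∀ R₀ : ℕ, ∃ R : ℕ, R₀ ≤ R ∧ ∑ N ∈ (Icc 1 R).filter (fun N => ¬ P N), (1 : ℝ) / N ≤ ε * Real.log R

lemma nu_eq {n p : ℕ} (hp : p.Prime) :
    Pool.Agent.Helper86.PS.nuP (Pool.Agent.Helper86.PE.pa (-1)) (Pool.Agent.Helper86.PE.ph (2 * n : ℤ)) p = nu n p := by
  have hp0 : (0 : ℤ) < p := by exact_mod_cast hp.pos
  obtain ⟨t, ht⟩ : ∃ t : ℕ, t = 2 * n % p := ⟨_, rfl⟩
  have htp : t < p := by rw [ht]; exact Nat.mod_lt _ hp.pos
  have hset : (range p).filter (fun x : ℕ => ∃ i, (p : ℤ) ∣ Pool.Agent.Helper86.PE.pa (-1) i * x +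
      Pool.Agent.Helper86.PE.ph (2 * n : ℤ) i) = {0, t} := by
    ext x
    rw [mem_filter, mem_range, mem_insert, mem_singleton, Fin.exists_fin_two]
    simp only [Pool.Agent.Helper86.PE.pa, Pool.Agent.Helper86.PE.ph, Matrix.cons_val_zero, Matrix.cons_val_one, one_mul,
      add_zero]
    constructor
    · rintro ⟨hx, h | h⟩
      · left
        have h1 : p ∣ x := by exact_mod_cast h
        exact Nat.eq_zero_of_dvd_of_lt h1 hx
      · right
        have h1 : (x : ℤ) ≡ ((2 * n : ℕ) : ℤ) [ZMOD p] := by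
          rw [Int.modEq_iff_dvd]
          push_cast
          have e : (2 * (n : ℤ)) - x = -1 * x + 2 * n := by ring
          rw [e]
          exact h
        have h2 := (Int.natCast_modEq_iff).1 h1
        unfold Nat.ModEq at h2
        rw [Nat.mod_eq_of_lt hx] at h2
        rw [h2, ht]
    · rintro (h0 | h0)
      · rw [h0]
        exact ⟨hp.pos, Or.inl (by simp)⟩
      · rw [h0]
        refine ⟨htp, Or.inr ?_⟩
        have h1 : ((2 * n % p : ℕ) : ℤ) ≡ ((2 * n : ℕ) : ℤ) [ZMOD p] := (Int.natCast_modEq_iff).2 (Nat.mod_modEq _ _)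
        have h2 := (Int.modEq_iff_dvd).1 h1
        rw [← ht] at h2
        push_cast at h2
        have e : -1 * (t : ℤ) + 2 * n = 2 * n - t := by ring
        rw [e]
        exact h2
  unfold Pool.Agent.Helper86.PS.nuP nu
  rw [hset]
  split_ifs with h
  · have : t = 0 := by rw [ht]; exact Nat.mod_eq_zero_of_dvd h
    rw [this]
    simp
  · have : (0 : ℕ) ≠ t := by
      intro h0
      apply h
      rw [ht] at h0
      exact Nat.dvd_of_mod_eq_zero h0.symm
    exact card_pair this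

lemma nu_lt {n p : ℕ} (hp : p.Prime) : nu n p < p := by
  unfold nu
  split_ifs with h
  · exact hp.one_lt
  · rcases hp.two_le.eq_or_lt with h2 | h2
    · exfalso
      apply h
      rw [← h2]
      exact dvd_mul_right 2 n
    · exact h2

lemma twG_eq (r n : ℕ) : Pool.Agent.Helper86.EA.twG r (Pool.Agent.Helper86.PE.pa (-1))
    (Pool.Agent.Helper86.PE.ph (2 * n : ℤ)) = unitResidues r n := by
  unfold Pool.Agent.Helper86.EA.twG unitResidues
  apply filter_congr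
  intro x _
  rw [Fin.forall_fin_two]
  simp only [Pool.Agent.Helper86.PE.pa, Pool.Agent.Helper86.PE.ph, Matrix.cons_val_zero, Matrix.cons_val_one, one_mul,
    add_zero]
  rw [show (-1 : ℤ) * x + 2 * n = 2 * n - x by ring]

lemma twA_eq (j : Pool.Agent.Helper86.PS.PC) (y : ℝ) (n : ℕ) : Pool.Agent.Helper86.EA.twA j y (Pool.Agent.Helper86.PE.pa (-1))
    (Pool.Agent.Helper86.PE.ph (2 * n : ℤ)) = twist j.2 y n := by
  unfold Pool.Agent.Helper86.EA.twA twist
  rw [twG_eq]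
  congr 1
  apply sum_congr rfl
  intro x _
  rw [Fin.prod_univ_two]
  simp only [Pool.Agent.Helper86.PE.pa, Pool.Agent.Helper86.PE.ph, Matrix.cons_val_zero, Matrix.cons_val_one, one_mul,
    add_zero]
  rw [show (-1 : ℤ) * x + 2 * n = 2 * n - x by ring]
  rfl

lemma reps_eq (n u v : ℕ) : Pool.Agent.Helper86.PS.pc (Pool.Agent.Helper86.PE.pa (-1))
    (Pool.Agent.Helper86.PE.ph (2 * n : ℤ)) u v = representations n u v := by
  unfold Pool.Agent.Helper86.PS.pc representations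
  symm
  apply card_bij (fun (p : ℕ) _ => (p : ℤ))
  · intro p hp
    rw [mem_filter, mem_Ico] at hp ⊢
    refine ⟨⟨by exact_mod_cast hp.1.1, by exact_mod_cast hp.1.2⟩, ?_⟩
    rw [Fin.forall_fin_two]
    simp only [Pool.Agent.Helper86.PE.pa, Pool.Agent.Helper86.PE.ph, Matrix.cons_val_zero, Matrix.cons_val_one, one_mul,
      add_zero, Int.toNat_natCast]
    refine ⟨hp.2.1, ?_⟩
    have e : (-1 * (p : ℤ) + 2 * n).toNat = 2 * n - p := by omega
    rw [e]
    exact hp.2.2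
  · intro p _ q _ h
    exact_mod_cast h
  · intro z hz
    rw [mem_filter, mem_Ico] at hz
    have hz0 : 0 ≤ z := le_trans (Int.natCast_nonneg u) hz.1.1
    obtain ⟨p, rfl⟩ := Int.eq_ofNat_of_zero_le hz0
    refine ⟨p, ?_, rfl⟩
    rw [mem_filter, mem_Ico]
    refine ⟨⟨by exact_mod_cast hz.1.1, by exact_mod_cast hz.1.2⟩, ?_⟩
    have h0 := hz.2 0
    have h1 := hz.2 1
    simp only [Pool.Agent.Helper86.PE.pa, Pool.Agent.Helper86.PE.ph, Matrix.cons_val_zero, Matrix.cons_val_one, one_mul,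
      add_zero, Int.ofNat_eq_natCast, Int.toNat_natCast] at h0 h1
    have e : (-1 * (p : ℤ) + 2 * n).toNat = 2 * n - p := by omega
    rw [e] at h1
    exact ⟨h0, h1⟩

open Classical in
/-- the first part -/
theorem part1 (K : ℕ) (ε : ℝ) (hε : 0 < ε) : ∃ D : ℕ, 0 < D ∧ ∃ δ : ℝ, 0 < δ ∧ ∃ c : ℝ, 0 < c ∧
    ∀ B : ℕ, ∀ κ : ℝ, 0 < κ → ∃ N₀ : ℕ, ∀ N : ℕ, N₀ ≤ N →
    ∃ r : ℕ, ∃ _ : NeZero r, Real.log N ^ B ≤ r ∧ ∃ χ : DirichletCharacter ℂ r, χ ^ 2 = 1 ∧
    ∃ y : ℝ, 0 ≤ y ∧ y ≤ 1 - (N : ℝ) ^ (-κ) ∧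
      (y = 0 ∨ (χ.IsPrimitive ∧ χ ≠ 1 ∧ ∃ β : ℝ, y = (N : ℝ) ^ (β - 1) ∧ χ.LFunction β = 0)) ∧
      ∀ (P : ℕ) (F : ℤ[X]), Family K δ N P F →
        (((range P).filter (fun x : ℕ => ∃ n : ℕ, 1 ≤ n ∧ ((|2 * n - F.eval (x : ℤ)| : ℤ) : ℝ) ≤ (N : ℝ) ^ δ ∧
          ¬ Good ε δ c D N χ y n)).card : ℝ) ≤ (N : ℝ) ^ (-δ) * P := by
  obtain ⟨D, hD, δ, hδ, c, hc, hm⟩ := Pool.Agent.Helper86.PE.everyG K hε
  refine ⟨D * 4, by omega, δ, hδ, c, hc, fun B κ hκ => ?_⟩
  obtain ⟨N₀, hN₀⟩ := hm B κ hκ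
  refine ⟨N₀ + 1, fun N hN => ?_⟩
  obtain ⟨j, hr, hj2, y, hy0, hyκ, hyβ, hP⟩ := hN₀ N (by omega)
  have hN1r : (1 : ℝ) ≤ N := by exact_mod_cast (by omega : 1 ≤ N)
  refine ⟨j.1 + 1, inferInstance, hr, j.2, hj2, y, hy0, hyκ, hyβ, fun P F hF => ?_⟩
  obtain ⟨hF1, hFK, hFP, hFB⟩ := hF
  obtain ⟨E, hE1, hE2⟩ := hP (-1) (by norm_num) (by
    have := Real.one_le_rpow hN1r hδ.le
    simpa using this) P F hF1 hFK hFP (by
    intro x hx hxP
    obtain ⟨k, rfl⟩ := Int.eq_ofNat_of_zero_le hx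
    exact hFB k (by exact_mod_cast hxP))
  refine le_trans ?_ hE1
  have hcard : ((range P).filter (fun x : ℕ => ∃ n : ℕ, 1 ≤ n ∧ ((|2 * n - F.eval (x : ℤ)| : ℤ) : ℝ) ≤ (N : ℝ) ^ δ ∧
      ¬ Good ε δ c (D * 4) N j.2 y n)).card ≤ E.card := by
    apply card_le_card_of_injOn (fun x : ℕ => (x : ℤ))
    · intro x hx
      rw [mem_coe, mem_filter, mem_range] at hx
      rw [mem_coe]
      by_contra hxE
      obtain ⟨hxP, n, hn, hnF, hng⟩ := hx
      apply hng
      obtain ⟨hT1, hT2, S, hS, hcS, hS2⟩ := hE2 x (Int.natCast_nonneg _) (by exact_mod_cast hxP) hxE (2 * n) (by omega) hnF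
        (fun p hp => by rw [nu_eq hp]; exact nu_lt hp)
      rw [twA_eq] at hT1 hT2 hS2
      have h4 : (2 : ℝ) ^ 2 = 4 := by norm_num
      rw [h4] at hT2
      refine ⟨hT1, hT2, S, ?_, hcS, fun u v hu hv hvN hW => ?_⟩
      · unfold IsSingularSeries
        have e : (fun p : Nat.Primes => (1 - (nu n p : ℝ) / (p : ℕ)) * ((1 - 1 / ((p : ℕ) : ℝ))⁻¹) ^ 2) =
            fun p : Nat.Primes => Pool.Agent.Helper86.PS.facP (Pool.Agent.Helper86.PE.pa (-1))
              (Pool.Agent.Helper86.PE.ph (2 * n : ℤ)) (p : ℕ) := by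
          funext p
          unfold Pool.Agent.Helper86.PS.facP
          rw [nu_eq p.2]
        rw [e]
        exact hS
      · have hcast : (((v : ℤ) - (u : ℤ) : ℤ) : ℝ) = (v : ℝ) - u := by push_cast; ring
        obtain ⟨g1, g2⟩ := hS2 u v (by
            have : (0 : ℤ) ≤ N := Int.natCast_nonneg _
            have : (0 : ℤ) ≤ u := Int.natCast_nonneg _
            linarith) (by exact_mod_cast hvN) (by rw [hcast]; exact hW) (by
          intro z hz i
          rw [mem_Ico] at hz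
          have hu' : (1 : ℤ) ≤ u := by exact_mod_cast hu
          have hv' : (v : ℤ) ≤ 2 * n := by exact_mod_cast hv
          fin_cases i
          · simp only [Pool.Agent.Helper86.PE.pa, Pool.Agent.Helper86.PE.ph, Fin.zero_eta, Matrix.cons_val_zero]
            linarith
          · simp only [Pool.Agent.Helper86.PE.pa, Pool.Agent.Helper86.PE.ph, Fin.mk_one, Matrix.cons_val_one,
              Matrix.cons_val_fin_one, Matrix.cons_val_zero]
            linarith)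
        rw [hcast, reps_eq] at g1 g2
        refine ⟨g1, fun hnd => g2 ?_⟩
        intro hdvd
        apply hnd
        have e : (D : ℤ) * ((2 * (n : ℤ)) ^ 2 * -1) = -((D * 4 * n ^ 2 : ℕ) : ℤ) := by
          push_cast
          ring
        rw [e, dvd_neg] at hdvd
        exact_mod_cast hdvd
    · intro x _ x' _ h
      simp only [Nat.cast_inj] at h
      exact h
  exact_mod_cast hcard

lemma close_ge (n : ℕ) {L : ℝ} (hL : 0 ≤ L) (hLn : L < n) : representations n (n - ⌊L⌋₊) n ≤ closePairs n L := by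
  classical
  unfold representations closePairs
  apply card_le_card
  intro p hp
  rw [mem_filter, mem_Ico] at hp
  rw [mem_filter, mem_range]
  refine ⟨hp.1.2, hp.2.1, hp.2.2, ?_⟩
  have h1 : ⌊L⌋₊ ≤ n := by
    have : (⌊L⌋₊ : ℝ) ≤ n := (Nat.floor_le hL).trans hLn.le
    exact_mod_cast this
  have h2 : n ≤ p + ⌊L⌋₊ := by omega
  have h3 : (n : ℝ) ≤ p + ⌊L⌋₊ := by exact_mod_cast h2
  have := Nat.floor_le hL
  linarith

open Classical in
/-- the second part -/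
theorem part2 (K : ℕ) : ∃ δ : ℝ, 0 < δ ∧ ∀ κ : ℝ, 0 < κ → ∃ N₀ : ℕ, ∀ N : ℕ, N₀ ≤ N →
    ∀ (P : ℕ) (F : ℤ[X]), Family K δ N P F →
      (((range P).filter (fun x : ℕ => ∃ n : ℕ, ((|2 * n - F.eval (x : ℤ)| : ℤ) : ℝ) ≤ (N : ℝ) ^ δ ∧
        (N : ℝ) ^ (1 - δ) < n ∧ n ≤ 2 * N ∧ (closePairs n ((N : ℝ) ^ (1 - δ)) : ℝ) < (N : ℝ) ^ (1 - δ - κ))).card : ℝ) ≤
          (N : ℝ) ^ (-δ) * P := by
  obtain ⟨D, hD, δ0, hδ0, c, hc, hm⟩ := part1 K (1 / 2) (by norm_num)
  obtain ⟨δ, hδ⟩ : ∃ δ : ℝ, δ = min (δ0 / 2) (1 / 2) := ⟨_, rfl⟩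
  have hδ0' : 0 < δ := by rw [hδ]; exact lt_min (by positivity) (by norm_num)
  have hδ1 : δ ≤ δ0 / 2 := by rw [hδ]; exact min_le_left _ _
  have hδ2 : δ ≤ 1 / 2 := by rw [hδ]; exact min_le_right _ _
  refine ⟨δ, hδ0', fun κ hκ => ?_⟩
  obtain ⟨N₁, hN₁⟩ := hm 0 (κ / 4) (by positivity)
  obtain ⟨N₂, hN₂⟩ := Pool.Agent.Helper86.PS.ev_log (4 / c) 2 (a := κ / 2) (by positivity)
  obtain ⟨N₃, hN₃⟩ := Pool.Agent.Helper86.PS.ev_log 2 0 (a := δ) hδ0'
  refine ⟨N₁ + N₂ + N₃ + 3, fun N hN P F hF => ?_⟩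
  have hNr : (3 : ℝ) ≤ N := by exact_mod_cast (by omega : 3 ≤ N)
  have hN1r : (1 : ℝ) ≤ N := by linarith
  have hN0 : (0 : ℝ) < N := by linarith
  have hl0 : 0 < Real.log N := Real.log_pos (by linarith)
  have hmon : ∀ x z : ℝ, x ≤ z → (N : ℝ) ^ x ≤ (N : ℝ) ^ z := fun x z h => Real.rpow_le_rpow_of_exponent_le hN1r h
  obtain ⟨r, hr0, -, χ, -, y, hy0, hyκ, -, hP⟩ := hN₁ N (by omega)
  have hF0 : Family K δ0 N P F := by
    obtain ⟨h1, h2, h3, h4⟩ := hF
    exact ⟨h1, h2, (hmon _ _ (by linarith)).trans h3, fun x hx => (h4 x hx).trans (hmon _ _ (by linarith))⟩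
  have hPF := hP P F hF0
  refine le_trans ?_ (hPF.trans (mul_le_mul_of_nonneg_right (hmon _ _ (by linarith)) (Nat.cast_nonneg _)))
  have hsub : (range P).filter (fun x : ℕ => ∃ n : ℕ, ((|2 * n - F.eval (x : ℤ)| : ℤ) : ℝ) ≤ (N : ℝ) ^ δ ∧
      (N : ℝ) ^ (1 - δ) < n ∧ n ≤ 2 * N ∧ (closePairs n ((N : ℝ) ^ (1 - δ)) : ℝ) < (N : ℝ) ^ (1 - δ - κ)) ⊆
      (range P).filter (fun x : ℕ => ∃ n : ℕ, 1 ≤ n ∧ ((|2 * n - F.eval (x : ℤ)| : ℤ) : ℝ) ≤ (N : ℝ) ^ δ0 ∧
        ¬ Good (1 / 2) δ0 c D N χ y n) := by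
    intro x hx
    rw [mem_filter] at hx ⊢
    obtain ⟨hxP, n, hnF, hnL, hnN, hlt⟩ := hx
    obtain ⟨L, hL⟩ : ∃ L : ℝ, L = (N : ℝ) ^ (1 - δ) := ⟨_, rfl⟩
    rw [← hL] at hnL hlt
    have hL1 : 1 ≤ L := by rw [hL]; exact Real.one_le_rpow hN1r (by linarith)
    have hn1 : 1 ≤ n := by
      have : (1 : ℝ) < n := lt_of_le_of_lt hL1 hnL
      have : (1 : ℕ) < n := by exact_mod_cast this
      omega
    refine ⟨hxP, n, hn1, hnF.trans (hmon _ _ (by linarith)), fun hg => ?_⟩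
    apply absurd hlt
    push Not
    obtain ⟨hT1, -, S, -, hcS, hmain⟩ := hg
    have hfl : (⌊L⌋₊ : ℝ) ≤ L := Nat.floor_le (by linarith)
    have hfln : ⌊L⌋₊ < n := by
      have : (⌊L⌋₊ : ℝ) < n := lt_of_le_of_lt hfl hnL
      exact_mod_cast this
    have hfl2 : L - 1 < ⌊L⌋₊ := by
      have := Nat.lt_floor_add_one L
      linarith
    have h2δ : 2 * (N : ℝ) ^ (1 - 2 * δ) ≤ L := by
      have e1 := hN₃ N (by omega)
      rw [pow_zero, mul_one] at e1
      have e2 : L = (N : ℝ) ^ δ * (N : ℝ) ^ (1 - 2 * δ) := by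
        rw [hL, ← Real.rpow_add hN0]
        congr 1
        ring
      rw [e2]
      exact mul_le_mul_of_nonneg_right e1 (Real.rpow_nonneg hN0.le _)
    have h1δ : 1 ≤ (N : ℝ) ^ (1 - 2 * δ) := Real.one_le_rpow hN1r (by linarith)
    have hcast : ((n : ℕ) : ℝ) - ((n - ⌊L⌋₊ : ℕ) : ℝ) = ⌊L⌋₊ := by
      rw [Nat.cast_sub hfln.le]
      ring
    have hlow := (hmain (n - ⌊L⌋₊) n (by omega) (by omega) hnN (by
      rw [hcast]
      refine (hmon (1 - δ0) (1 - 2 * δ) (by linarith)).trans ?_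
      linarith)).1
    rw [hcast] at hlow
    have hcl : (representations n (n - ⌊L⌋₊) n : ℝ) ≤ closePairs n L := by
      exact_mod_cast close_ge n (by linarith) hnL
    refine le_trans ?_ hcl
    obtain ⟨T, hT⟩ : ∃ T : ℝ, T = twist χ y n := ⟨_, rfl⟩
    rw [← hT] at hT1 hlow
    have hW : L / 2 ≤ ⌊L⌋₊ := by linarith
    have hy2 : (N : ℝ) ^ (-(κ / 2)) ≤ (1 - y) ^ 2 := by
      have e1 : ((N : ℝ) ^ (-(κ / 4))) ^ 2 ≤ (1 - y) ^ 2 :=
        pow_le_pow_left₀ (Real.rpow_nonneg hN0.le _) (by linarith) 2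
      refine le_trans (le_of_eq ?_) e1
      rw [← Real.rpow_natCast, ← Real.rpow_mul hN0.le]
      congr 1
      push_cast
      ring
    have hS0 : 0 ≤ S := hc.le.trans hcS
    have hT0 : 0 ≤ T := le_trans (by positivity) hT1
    have hlog2 : 0 < Real.log N ^ 2 := by positivity
    have hLW : L / 2 / Real.log N ^ 2 ≤ (⌊L⌋₊ : ℝ) / Real.log N ^ 2 := div_le_div_of_nonneg_right hW hlog2.le
    have hmainge : (N : ℝ) ^ (-(κ / 2)) * c * (L / 2 / Real.log N ^ 2) ≤ T * S * ((⌊L⌋₊ : ℝ) / Real.log N ^ 2) := by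
      apply mul_le_mul (mul_le_mul (hy2.trans hT1) hcS hc.le hT0) hLW (by positivity) (mul_nonneg hT0 hS0)
    have h5 := (abs_le.1 hlow).1
    have h6 : (N : ℝ) ^ (1 - δ - κ) ≤ 1 / 2 * ((N : ℝ) ^ (-(κ / 2)) * c * (L / 2 / Real.log N ^ 2)) := by
      have e1 := hN₂ N (by omega)
      have e2 : (N : ℝ) ^ (1 - δ - κ) = (N : ℝ) ^ (-(κ / 2)) * ((N : ℝ) ^ (-(κ / 2)) * L) := by
        rw [hL, ← Real.rpow_add hN0, ← Real.rpow_add hN0]
        congr 1
        ring
      have e3 : (N : ℝ) ^ (-(κ / 2)) ≤ c / 4 / Real.log N ^ 2 := by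
        rw [le_div_iff₀ hlog2, Real.rpow_neg hN0.le, inv_mul_le_iff₀ (Real.rpow_pos_of_pos hN0 _)]
        rw [div_mul_eq_mul_div, div_le_iff₀ hc] at e1
        linarith
      rw [e2]
      calc (N : ℝ) ^ (-(κ / 2)) * ((N : ℝ) ^ (-(κ / 2)) * L) ≤ (N : ℝ) ^ (-(κ / 2)) * (c / 4 / Real.log N ^ 2 * L) := by
            apply mul_le_mul_of_nonneg_left _ (Real.rpow_nonneg hN0.le _)
            exact mul_le_mul_of_nonneg_right e3 (by linarith)
        _ = _ := by ring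
    linarith
  exact_mod_cast card_le_card hsub

open Classical in
/-- the third part -/
theorem part3 (K : ℕ) (ε : ℝ) (hε : 0 < ε) : ∃ δ : ℝ, 0 < δ ∧ MostScales ε (fun N =>
    ∀ (P : ℕ) (F : ℤ[X]), Family K δ N P F → (∀ x : ℕ, x < P → |F.eval (x : ℤ)| ≤ N) →
      (((range P).filter (fun x : ℕ => ∃ n : ℕ, ((|2 * n - F.eval (x : ℤ)| : ℤ) : ℝ) ≤ (N : ℝ) ^ δ ∧
        ¬ Predicted ε δ N n)).card : ℝ) ≤ (N : ℝ) ^ (-δ) * P) := by
  obtain ⟨δ, hδ, hm⟩ := Pool.Agent.Helper85.HP.mostG K hε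
  refine ⟨δ, hδ, fun R₀ => ?_⟩
  obtain ⟨R, hR, hsum⟩ := hm R₀
  refine ⟨R, hR, le_trans ?_ hsum⟩
  apply sum_le_sum_of_subset_of_nonneg
  · intro N hN
    rw [mem_filter] at hN ⊢
    refine ⟨hN.1, fun hP => hN.2 ?_⟩
    intro P F hF hFN
    obtain ⟨E, hE1, hE2⟩ := hP P F ⟨hF.1, hF.2.1⟩ hF.2.2.1 (by
      intro x hx hxP
      obtain ⟨k, rfl⟩ := Int.eq_ofNat_of_zero_le hx
      exact hFN k (by exact_mod_cast hxP))
    refine le_trans ?_ hE1
    have hcard : ((range P).filter (fun x : ℕ => ∃ n : ℕ, ((|2 * n - F.eval (x : ℤ)| : ℤ) : ℝ) ≤ (N : ℝ) ^ δ ∧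
        ¬ Predicted ε δ N n)).card ≤ E.card := by
      apply card_le_card_of_injOn (fun x : ℕ => (x : ℤ))
      · intro x hx
        rw [mem_coe, mem_filter, mem_range] at hx
        rw [mem_coe]
        by_contra hxE
        obtain ⟨hxP, n, hnF, hng⟩ := hx
        apply hng
        obtain ⟨S, hS, hS2⟩ := hE2 x (Int.natCast_nonneg _) (by exact_mod_cast hxP) hxE (2 * (n : ℤ)) hnF
          (Dvd.intro _ rfl)
        refine ⟨S, ?_, Pool.Agent.Helper86.PS.S_pos (fun p hp => Pool.Agent.Helper85.HP.adm_even (Dvd.intro _ rfl) hp) hS,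
          fun u v hu hv hW => ?_⟩
        · unfold IsSingularSeries
          have e : (fun p : Nat.Primes => (1 - (nu n p : ℝ) / (p : ℕ)) * ((1 - 1 / ((p : ℕ) : ℝ))⁻¹) ^ 2) =
              fun p : Nat.Primes => Pool.Agent.Helper86.PS.facP (Pool.Agent.Helper86.PE.pa (-1))
                (Pool.Agent.Helper86.PE.ph (2 * n : ℤ)) (p : ℕ) := by
            funext p
            unfold Pool.Agent.Helper86.PS.facP
            rw [nu_eq p.2]
          rw [e]
          exact hS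
        · have e1 : (((v : ℤ) - (u : ℤ) : ℤ) : ℝ) = (v : ℝ) - u := by push_cast; ring
          have h1 := hS2 (u : ℤ) (v : ℤ) (by exact_mod_cast hu) (by exact_mod_cast hv) (by rw [e1]; exact hW)
          have e2 : Pool.Agent.Helper86.PS.pc Pool.Agent.Helper85.HP.a2 (Pool.Agent.Helper85.HP.h2 (2 * (n : ℤ)))
              (u : ℤ) (v : ℤ) = representations n u v := reps_eq n u v
          rw [e2, e1] at h1
          exact h1
      · intro x _ x' _ h
        simp only [Nat.cast_inj] at h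
        exact h
    exact_mod_cast hcard
  · intro N _ _
    positivity

open Classical in
/-- Goldbach's problem along the values of polynomials at every scale: an asymptotic formula for the number of the
representations, in all intervals, with the exceptional zero in the main term; the existence of representations
as sums of two distinct almost equal primes; and at most scales the asymptotic formula without the factor. -/
theorem result :
    (∀ K : ℕ, ∀ ε : ℝ, 0 < ε → ∃ D : ℕ, 0 < D ∧ ∃ δ : ℝ, 0 < δ ∧ ∃ c : ℝ, 0 < c ∧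
      ∀ B : ℕ, ∀ κ : ℝ, 0 < κ → ∃ N₀ : ℕ, ∀ N : ℕ, N₀ ≤ N →
      ∃ r : ℕ, ∃ _ : NeZero r, Real.log N ^ B ≤ r ∧ ∃ χ : DirichletCharacter ℂ r, χ ^ 2 = 1 ∧
      ∃ y : ℝ, 0 ≤ y ∧ y ≤ 1 - (N : ℝ) ^ (-κ) ∧
        (y = 0 ∨ (χ.IsPrimitive ∧ χ ≠ 1 ∧ ∃ β : ℝ, y = (N : ℝ) ^ (β - 1) ∧ χ.LFunction β = 0)) ∧
        ∀ (P : ℕ) (F : ℤ[X]), Family K δ N P F →
          (((range P).filter (fun x : ℕ => ∃ n : ℕ, 1 ≤ n ∧ ((|2 * n - F.eval (x : ℤ)| : ℤ) : ℝ) ≤ (N : ℝ) ^ δ ∧
            ¬ Good ε δ c D N χ y n)).card : ℝ) ≤ (N : ℝ) ^ (-δ) * P) ∧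
    (∀ K : ℕ, ∃ δ : ℝ, 0 < δ ∧ ∀ κ : ℝ, 0 < κ → ∃ N₀ : ℕ, ∀ N : ℕ, N₀ ≤ N →
      ∀ (P : ℕ) (F : ℤ[X]), Family K δ N P F →
        (((range P).filter (fun x : ℕ => ∃ n : ℕ, ((|2 * n - F.eval (x : ℤ)| : ℤ) : ℝ) ≤ (N : ℝ) ^ δ ∧
          (N : ℝ) ^ (1 - δ) < n ∧ n ≤ 2 * N ∧ (closePairs n ((N : ℝ) ^ (1 - δ)) : ℝ) < (N : ℝ) ^ (1 - δ - κ))).card : ℝ) ≤
            (N : ℝ) ^ (-δ) * P) ∧
    (∀ K : ℕ, ∀ ε : ℝ, 0 < ε → ∃ δ : ℝ, 0 < δ ∧ MostScales ε (fun N =>
      ∀ (P : ℕ) (F : ℤ[X]), Family K δ N P F → (∀ x : ℕ, x < P → |F.eval (x : ℤ)| ≤ N) →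
        (((range P).filter (fun x : ℕ => ∃ n : ℕ, ((|2 * n - F.eval (x : ℤ)| : ℤ) : ℝ) ≤ (N : ℝ) ^ δ ∧
          ¬ Predicted ε δ N n)).card : ℝ) ≤ (N : ℝ) ^ (-δ) * P)) :=
  ⟨fun K ε hε => part1 K ε hε, fun K => part2 K, fun K ε hε => part3 K ε hε⟩

end Pool.Agent.Results.MP_7b7e48_nt.PolynomialValues
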