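import Pool.Agent.Helper86.PS.H9

/-!
# The prime tuples conjecture at most scales, with a power saving in the number of exceptions

For all `s`, `A`, `ε` there is `δ > 0` such that at most scales `N` the number of the `n` in an interval for which
all `a i * n + h i` are prime is the one predicted by Hardy and Littlewood, up to the relative error `ε`,

* for all systems of nonzero coefficients `a i` with absolute values at most `A`,
* for all vectors `h` of shifts with absolute values at most `A * N`, without a local obstruction, with the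
  exception of at most `N ^ (s - 1 - δ)` lines `e + ℤ a` (on a line the problem is one and the same up to a
  translation of the interval; the shifts in question form about `N ^ (s - 1)` such lines),
* for all intervals `[u, v)` inside `[-N, N]` of length at least `N ^ (1 - δ)` on which the forms are positive.

In particular, at most scales `N` all admissible patterns `(0, g 1, …, g k)` with `|g i| ≤ A * N`, with the exception
of at most `N ^ (k - δ)` of them, satisfy the prime tuples conjecture at `N` up to the relative error `ε`, and also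
on all the intervals in `[1, N]` of length at least `N ^ (1 - δ)`.
-/

set_option autoImplicit false

namespace Pool.Agent.Results.MP_e87c7d_nt.PowerSavingAtMostScales

open Finset

open Classical in
/-- The property `P` holds at most scales: the set of the positive integers `N` with the property `P` has upper
logarithmic density at least `1 - ε`. Precisely, for arbitrarily large `R` the sum of `1 / N` over the `N ≤ R`
without the property is at most `ε log R`. -/
def MostScales (ε : ℝ) (P : ℕ → Prop) : Prop :=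
  ∀ R₀ : ℕ, ∃ R : ℕ, R₀ ≤ R ∧ ∑ N ∈ (Icc 1 R).filter (fun N => ¬ P N), (1 : ℝ) / N ≤ ε * Real.log R

/-- The number of the residue classes `x` modulo `p` for which `p` divides one of the `a i * x + h i`. -/
def nu {s : ℕ} (a h : Fin s → ℤ) (p : ℕ) : ℕ :=
  ((range p).filter (fun x : ℕ => ∃ i, (p : ℤ) ∣ a i * x + h i)).card

/-- There is no local obstruction. -/
def Admissible {s : ℕ} (a h : Fin s → ℤ) : Prop := ∀ p : ℕ, p.Prime → nu a h p < p

/-- `S` is the singular series of the system. -/
def IsSingularSeries {s : ℕ} (a h : Fin s → ℤ) (S : ℝ) : Prop :=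
  HasProd (fun p : Nat.Primes => (1 - (nu a h p : ℝ) / (p : ℕ)) * ((1 - 1 / ((p : ℕ) : ℝ))⁻¹) ^ s) S

/-- The number of the `n` with `u ≤ n < v` for which all the `a i * n + h i` are prime. -/
noncomputable def primeTuples {s : ℕ} (a h : Fin s → ℤ) (u v : ℤ) : ℕ :=
  ((Ico u v).filter (fun n : ℤ => ∀ i, (a i * n + h i).toNat.Prime)).card

/-- The number of the `n` in `[u, v)` for which all the `a i * n + h i` are prime is `S (v - u) / (log N) ^ s` up to
the relative error `ε`, where `S` is the singular series, for all intervals in `[-N, N]` of length at least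
`N ^ (1 - δ)` on which the `a i * n + h i` are positive. -/
def Predicted {s : ℕ} (ε δ : ℝ) (N : ℕ) (a h : Fin s → ℤ) : Prop :=
  ∃ S : ℝ, IsSingularSeries a h S ∧ ∀ u v : ℤ, -(N : ℤ) ≤ u → v ≤ N → (N : ℝ) ^ (1 - δ) ≤ ((v - u : ℤ) : ℝ) →
    (∀ n ∈ Ico u v, ∀ i, 1 ≤ a i * n + h i) →
    |(primeTuples a h u v : ℝ) - S * (((v - u : ℤ) : ℝ) / Real.log N ^ s)| ≤
      ε * (S * (((v - u : ℤ) : ℝ) / Real.log N ^ s))

/-- The pattern `0, g 1, …, g k`. -/
def pattern {k : ℕ} (g : Fin k → ℤ) : Fin (k + 1) → ℤ := Fin.cons 0 g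

open Classical in
/-- The prime tuples conjecture at most scales with a power saving in the number of exceptions, for linear forms
and for patterns. -/
theorem result :
    (∀ s : ℕ, 1 ≤ s → ∀ A : ℕ, ∀ ε : ℝ, 0 < ε → ∃ δ : ℝ, 0 < δ ∧ MostScales ε (fun N =>
      ∀ a : Fin s → ℤ, (∀ i, a i ≠ 0 ∧ |a i| ≤ A) →
        ∃ E : Finset (Fin s → ℤ), (E.card : ℝ) ≤ (N : ℝ) ^ ((s : ℝ) - 1 - δ) ∧
          ∀ h : Fin s → ℤ, (∀ i, |h i| ≤ A * N) → (∀ e ∈ E, ∀ t : ℤ, h ≠ e + t • a) → Admissible a h →
            Predicted ε δ N a h)) ∧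
    (∀ k : ℕ, ∀ A : ℕ, ∀ ε : ℝ, 0 < ε → ∃ δ : ℝ, 0 < δ ∧ MostScales ε (fun N =>
      (((Fintype.piFinset (fun _ : Fin k => Icc (-(A * N : ℤ)) (A * N))).filter
        (fun g => Admissible (fun _ => 1) (pattern g) ∧ ¬ Predicted ε δ N (fun _ => 1) (pattern g))).card : ℝ) ≤
        (N : ℝ) ^ ((k : ℝ) - δ))) := by
  have h1 : ∀ s : ℕ, 1 ≤ s → ∀ A : ℕ, ∀ ε : ℝ, 0 < ε → ∃ δ : ℝ, 0 < δ ∧ MostScales ε (fun N =>
      ∀ a : Fin s → ℤ, (∀ i, a i ≠ 0 ∧ |a i| ≤ A) →
        ∃ E : Finset (Fin s → ℤ), (E.card : ℝ) ≤ (N : ℝ) ^ ((s : ℝ) - 1 - δ) ∧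
          ∀ h : Fin s → ℤ, (∀ i, |h i| ≤ A * N) → (∀ e ∈ E, ∀ t : ℤ, h ≠ e + t • a) → Admissible a h →
            Predicted ε δ N a h) := by
    intro s hs A ε hε
    obtain ⟨δ, hδ, hm⟩ := Pool.Agent.Helper86.PS.most s hs (A + 1) (by omega) hε
    refine ⟨δ, hδ, fun R₀ => ?_⟩
    obtain ⟨R, hR, hsum⟩ := hm R₀
    refine ⟨R, hR, le_trans ?_ hsum⟩
    apply sum_le_sum_of_subset_of_nonneg
    · intro N hN
      rw [mem_filter] at hN ⊢
      refine ⟨hN.1, fun hP => hN.2 ?_⟩
      intro a ha
      obtain ⟨E, hE1, hE2⟩ := hP a (fun i => ⟨(ha i).1, (ha i).2.trans (by push_cast; linarith)⟩)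
      refine ⟨E, hE1, fun h hh hne hadm => ?_⟩
      obtain ⟨S, hS1, hS2⟩ := hE2 h (fun i => (hh i).trans (by
        push_cast
        have : (0 : ℤ) ≤ N := Int.natCast_nonneg _
        nlinarith)) hne hadm
      exact ⟨S, hS1, hS2⟩
    · intro N _ _
      positivity
  refine ⟨h1, fun k A ε hε => ?_⟩
  obtain ⟨δ, hδ, hm⟩ := h1 (k + 1) (by omega) (A + 1) ε hε
  refine ⟨δ, hδ, fun R₀ => ?_⟩
  obtain ⟨R, hR, hsum⟩ := hm R₀
  refine ⟨R, hR, le_trans ?_ hsum⟩
  apply sum_le_sum_of_subset_of_nonneg
  · intro N hN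
    rw [mem_filter] at hN ⊢
    refine ⟨hN.1, fun hP => hN.2 ?_⟩
    obtain ⟨E, hE1, hE2⟩ := hP (fun _ => 1) (fun i => ⟨one_ne_zero, by
      rw [abs_one]
      push_cast
      have : (0 : ℤ) ≤ A := Int.natCast_nonneg _
      linarith⟩)
    have hk : ((k + 1 : ℕ) : ℝ) - 1 - δ = (k : ℝ) - δ := by push_cast; ring
    rw [hk] at hE1
    refine le_trans ?_ hE1
    have hcard : ((Fintype.piFinset (fun _ : Fin k => Icc (-(A * N : ℤ)) (A * N))).filter
        (fun g => Admissible (fun _ => 1) (pattern g) ∧ ¬ Predicted ε δ N (fun _ => 1) (pattern g))).card ≤ E.card := by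
      have hex : ∀ g ∈ (Fintype.piFinset (fun _ : Fin k => Icc (-(A * N : ℤ)) (A * N))).filter
          (fun g => Admissible (fun _ => 1) (pattern g) ∧ ¬ Predicted ε δ N (fun _ => 1) (pattern g)),
          ∃ e ∈ E, ∃ t : ℤ, pattern g = e + t • (fun _ => (1 : ℤ)) := by
        intro g hg
        rw [mem_filter, Fintype.mem_piFinset] at hg
        by_contra hc
        push Not at hc
        apply hg.2.2
        apply hE2 (pattern g) _ hc hg.2.1
        intro i
        have q0 : (0 : ℤ) ≤ N := Int.natCast_nonneg _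
        have q1 : (0 : ℤ) ≤ A := Int.natCast_nonneg _
        have q2 : (0 : ℤ) ≤ A * N := mul_nonneg q1 q0
        refine Fin.cases ?_ (fun j => ?_) i
        · simp only [pattern, Fin.cons_zero, abs_zero]
          positivity
        · simp only [pattern, Fin.cons_succ]
          have := hg.1 j
          rw [mem_Icc] at this
          rw [abs_le]
          push_cast
          constructor <;> nlinarith [this.1, this.2]
      choose! f hf t ht using hex
      apply card_le_card_of_injOn f (fun g hg => hf g hg)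
      intro g hg g' hg' hgg
      have e1 := ht g hg
      have e2 := ht g' hg'
      rw [← hgg] at e2
      have z1 := congrFun e1 0
      have z2 := congrFun e2 0
      simp only [pattern, Fin.cons_zero, Pi.add_apply, Pi.smul_apply, smul_eq_mul, mul_one] at z1 z2
      have htt : t g = t g' := by linarith
      funext j
      have w1 := congrFun e1 j.succ
      have w2 := congrFun e2 j.succ
      simp only [pattern, Fin.cons_succ, Pi.add_apply, Pi.smul_apply, smul_eq_mul, mul_one] at w1 w2
      rw [w1, w2, htt]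
    exact_mod_cast hcard
  · intro N _ _
    positivity

end Pool.Agent.Results.MP_e87c7d_nt.PowerSavingAtMostScales
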